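import Mathlib
import Pool.Agent.R47.RSA.Main
import Pool.Agent.R47.RSA.Rec

/-!
MP_669328_pr, Q1: the asymptotic variance of the number of `r`-mers in the jammed configuration of
random sequential adsorption on `n` sites.

`R47.RSA.Ex r f k A` is the expected value of `f (k + N)`, where `N` is the number of `r`-mers placed
until jamming when `A` is the set of the uncovered sites, each placement being uniform among the
blocks of `r` consecutive sites that are entirely uncovered. So `sec r n - mean r n ^ 2` is the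
variance of `C_n`.
-/

namespace Pool.Agent.Results.MP_669328_pr.JammingVariance

open Filter Topology R47.RSA

/-- `Var C_n` -/
noncomputable def variance (r n : ℕ) : ℝ :=
  Ex r (fun k => (k : ℝ) ^ 2) 0 (Finset.range n) - (Ex r (fun k => (k : ℝ)) 0 (Finset.range n)) ^ 2

/-- **Main theorem.** `Var C_n / n → v(r)`, where
`v(r) = 2 ∫₀¹ φ(x) ((1-x) ∑_{n<r} (1 - λ(n+r))² x^n + (N(x)/(1-x))²) dx`,
`φ(x) = exp (-2 ∑_{k=1}^{r-1} (1-x^k)/k)`, `λ = ∫₀¹ φ` and
`N(x) = x^(r-1) φ(x)⁻¹ ∫₀ˣ φ + (1 - rλ)(1-x) - λx`. -/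
theorem result (r : ℕ) (hr : 1 ≤ r) :
    Tendsto (fun n : ℕ => variance r n / n) atTop
      (𝓝 (2 * ∫ x in (0 : ℝ)..1, phi r x *
        ((1 - x) * ∑ n ∈ Finset.range r, (1 - lam r * (n + r)) ^ 2 * x ^ n +
          (NN r x / (1 - x)) ^ 2))) := by
  obtain ⟨p, rfl⟩ : ∃ p, r = p + 1 := ⟨r - 1, by omega⟩
  exact variance_tendsto p rec_stm

end Pool.Agent.Results.MP_669328_pr.JammingVariance
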